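import Pool.Agent.Lib.MP_c603ed_co.Final

/-!
# The star transposition graph `G(α, α, 1)` is Hamilton-connected for every `α ≥ 2`

The symbols `1, 2, 3` of the alphabet are the elements `0, 1, 2` of `Fin 3`, the first entry of a
string is the entry with index `0`.
-/

set_option autoImplicit false

namespace Pool.Agent.Results.MP_c603ed_co.HamiltonConnected

/-- The vertices of `G(α, α, 1)`: the strings of length `2α + 1` over the alphabet `{0, 1, 2}` in which
the symbols `0` and `1` occur exactly `α` times and the symbol `2` occurs exactly once. -/
def Vert (α : ℕ) : Type :=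
  {x : Fin (2 * α + 1) → Fin 3 // (Finset.univ.filter (fun i => x i = 0)).card = α ∧
    (Finset.univ.filter (fun i => x i = 1)).card = α ∧
    (Finset.univ.filter (fun i => x i = 2)).card = 1}

instance (α : ℕ) : DecidableEq (Vert α) := by
  unfold Vert
  infer_instance

/-- The star transposition graph `G(α, α, 1)`: two strings are adjacent when one arises from the other
by exchanging the first entry with an entry carrying a different symbol. -/
def starGraph (α : ℕ) : SimpleGraph (Vert α) where
  Adj x y := ∃ j : Fin (2 * α + 1), j ≠ 0 ∧ x.1 0 ≠ x.1 j ∧ y.1 = x.1 ∘ Equiv.swap 0 j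
  symm := ⟨by
    rintro x y ⟨j, hj, hne, hy⟩
    refine ⟨j, hj, ?_, ?_⟩
    · rw [hy]
      simpa using hne.symm
    · rw [hy]
      funext i
      simp⟩
  loopless := ⟨by
    rintro x ⟨j, hj, hne, hy⟩
    apply hne
    have := congrFun hy 0
    simpa using this⟩

/-- A graph is Hamilton-connected if every two different vertices are the end vertices of a Hamilton
path. -/
def IsHamiltonConnected {V : Type} [DecidableEq V] (G : SimpleGraph V) : Prop :=
  ∀ u v : V, u ≠ v → ∃ p : G.Walk u v, p.IsHamiltonian

/-- For every integer `α ≥ 2` the star transposition graph `G(α, α, 1)` is Hamilton-connected. -/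
theorem result : ∀ α : ℕ, 2 ≤ α → IsHamiltonConnected (starGraph α) := by
  intro α hα u v huv
  exact MPc603ed.final α hα (inferInstanceAs (DecidableEq (Vert α))) u v huv

end Pool.Agent.Results.MP_c603ed_co.HamiltonConnected
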